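import Mathlib
import Pool.Agent.Helper433_LF.Flat

set_option autoImplicit false

/-!
# The exponential sums of the Liouville function are not flat from below

`S N θ = ∑_{n ≤ N} λ(n) e^{2πinθ}` and `m N = min_θ |S N θ|`.  We show that
`liminf m(N) / √N = 0`; in fact `m(N)` stays bounded along an infinite sequence of `N`.

Proof.  `S N θ = z P_N(z)` with `z = e^{2πiθ}`, where the `P_N` are the partial sums of one power
series with coefficients `±1`.  If `|P_N| > 1` on the unit circle for all large `N`, then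
`|P_(N+1) - P_N| = 1 < |P_N|` there, so that by Rouché's theorem all the `P_N`, `N` large, have the
same number `k` of zeros in the unit disc.  These zeros stay away from `0`, and the Mahler measure of
`P_N` is bounded by Jensen's formula; it is at least the minimum of `|P_N|` on the circle.
-/

namespace Pool.Agent.Results.MP_69dca4_nt.NotFlat

open Complex Real Filter

/-- the exponential sum `∑_{n ≤ N} λ(n) e^{2πinθ}` -/
noncomputable def S (N : ℕ) (θ : ℝ) : ℂ :=
  ∑ n ∈ Finset.Icc 1 N, (ArithmeticFunction.liouville n : ℂ) * cexp (2 * π * I * n * θ)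

/-- the minimum over `θ` of `|S N θ|` -/
noncomputable def m (N : ℕ) : ℝ := ⨅ θ : ℝ, ‖S N θ‖

/-- the coefficients `λ(n + 1)` -/
noncomputable def a (n : ℕ) : ℂ := (ArithmeticFunction.liouville (n + 1) : ℂ)

theorem norm_a (n : ℕ) : ‖a n‖ = 1 := by
  unfold a
  rw [ArithmeticFunction.liouville_apply (Nat.succ_ne_zero n)]
  simp

theorem S_eq (N : ℕ) (θ : ℝ) : S N θ = cexp (2 * π * I * θ) *
    (Helper433_LF.PS a N).eval (cexp (2 * π * I * θ)) := by
  rw [Helper433_LF.PS_eval, Finset.mul_sum, S]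
  rw [Finset.sum_bij (fun n _ => n - 1) (t := Finset.range N)
    (g := fun n => cexp (2 * π * I * θ) * (a n * cexp (2 * π * I * θ) ^ n))]
  · intro n hn
    rw [Finset.mem_Icc] at hn
    rw [Finset.mem_range]
    omega
  · intro n hn n' hn' h
    rw [Finset.mem_Icc] at hn hn'
    omega
  · intro b hb
    rw [Finset.mem_range] at hb
    exact ⟨b + 1, by rw [Finset.mem_Icc]; omega, by omega⟩
  · intro n hn
    rw [Finset.mem_Icc] at hn
    obtain ⟨j, rfl⟩ : ∃ j, n = j + 1 := ⟨n - 1, by omega⟩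
    rw [Nat.add_sub_cancel, a, ← Complex.exp_nat_mul]
    rw [mul_left_comm, ← Complex.exp_add]
    congr 2
    push_cast
    ring

theorem norm_S (N : ℕ) (θ : ℝ) :
    ‖S N θ‖ = ‖(Helper433_LF.PS a N).eval (cexp (2 * π * I * θ))‖ := by
  rw [S_eq, norm_mul]
  have h : ‖cexp (2 * π * I * θ)‖ = 1 := by
    rw [show (2 * π * I * θ : ℂ) = ((2 * π * θ : ℝ) : ℂ) * I by push_cast; ring,
      Complex.norm_exp_ofReal_mul_I]
  rw [h, one_mul]

theorem m_nonneg (N : ℕ) : 0 ≤ m N := Real.iInf_nonneg (fun _ => norm_nonneg _)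

theorem m_le (N : ℕ) (θ : ℝ) : m N ≤ ‖S N θ‖ :=
  ciInf_le ⟨0, by rintro _ ⟨x, rfl⟩; exact norm_nonneg _⟩ θ

/-- The infimum in the definition of `m` is a minimum. -/
theorem m_attained (N : ℕ) : ∃ θ : ℝ, ‖S N θ‖ = m N := by
  have hc : Continuous (fun θ : ℝ => ‖S N θ‖) := by
    unfold S
    fun_prop
  have hper : ∀ θ : ℝ, ‖S N (Int.fract θ)‖ = ‖S N θ‖ := by
    intro θ
    rw [norm_S, norm_S]
    congr 2
    rw [Complex.exp_eq_exp_iff_exists_int]
    refine ⟨-⌊θ⌋, ?_⟩
    have : ((Int.fract θ : ℝ) : ℂ) = (θ : ℂ) - (⌊θ⌋ : ℂ) := by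
      rw [Int.fract]; push_cast; rfl
    rw [this]
    push_cast
    ring
  obtain ⟨θ, _, h2⟩ := isCompact_Icc.exists_isMinOn (s := Set.Icc (0 : ℝ) 1) ⟨0, by simp⟩
    hc.continuousOn
  refine ⟨θ, le_antisymm ?_ (m_le N θ)⟩
  apply le_ciInf
  intro t
  rw [← hper t]
  exact h2 ⟨Int.fract_nonneg t, (Int.fract_lt_one t).le⟩

theorem bounded : ∃ C : ℝ, ∃ᶠ N in atTop, m N ≤ C := by
  obtain ⟨C, hC⟩ := Helper433_LF.main (a := a) (fun n => (norm_a n).le)
    (by intro h; have := norm_a 0; rw [h, norm_zero] at this; exact zero_ne_one this)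
  refine ⟨C, ?_⟩
  rw [frequently_atTop]
  intro N₀
  obtain ⟨N, hN, z, hz, h⟩ := hC N₀
  refine ⟨N, hN, (m_le N (z.arg / (2 * π))).trans ?_⟩
  have h1 : cexp (2 * π * I * ((z.arg / (2 * π) : ℝ) : ℂ)) = z := by
    conv_rhs => rw [← Complex.norm_mul_exp_arg_mul_I z, hz]
    rw [Complex.ofReal_one, one_mul]
    congr 1
    push_cast
    have : (π : ℂ) ≠ 0 := by exact_mod_cast Real.pi_ne_zero
    field_simp
  rw [norm_S, h1]
  exact h

/-- **`liminf m(N)/√N = 0`** for the exponential sums of the Liouville function; moreover `m(N)` is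
bounded along an infinite sequence of `N`. -/
theorem result : liminf (fun N : ℕ => m N / √(N : ℝ)) atTop = 0 ∧
    ∃ C : ℝ, ∃ᶠ N in atTop, m N ≤ C := by
  refine ⟨?_, bounded⟩
  obtain ⟨C, hC⟩ := bounded
  have hsmall : ∀ ε : ℝ, 0 < ε → ∃ᶠ N in atTop, m N / √(N : ℝ) < ε := by
    intro ε hε
    have h1 : ∀ᶠ N : ℕ in atTop, (|C| + 1) / ε < √(N : ℝ) := by
      have : Tendsto (fun N : ℕ => √(N : ℝ)) atTop atTop :=
        Real.tendsto_sqrt_atTop.comp tendsto_natCast_atTop_atTop
      exact this.eventually_gt_atTop _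
    refine (hC.and_eventually h1).mono ?_
    rintro N ⟨h2, h3⟩
    have h4 : 0 < √(N : ℝ) := lt_of_le_of_lt (by positivity) h3
    rw [div_lt_iff₀ h4]
    rw [div_lt_iff₀ hε] at h3
    have h5 := le_abs_self C
    nlinarith
  rw [Filter.liminf_eq]
  apply IsGreatest.csSup_eq
  constructor
  · exact Eventually.of_forall (fun N => div_nonneg (m_nonneg N) (Real.sqrt_nonneg _))
  · intro x hx
    by_contra hlt
    rw [not_le] at hlt
    obtain ⟨N, h1, h2⟩ := ((hsmall x hlt).and_eventually hx).exists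
    exact absurd h2 (not_le.2 h1)

end Pool.Agent.Results.MP_69dca4_nt.NotFlat
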